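import Pool.Agent.V1171.HSH.Conv

set_option autoImplicit false

open MeasureTheory Pool.Agent.V1171.HSH

/-- On a bounded Reinhardt domain `Ω ⊆ ℂⁿ`, `n ≥ 2`, a Hankel operator with conjugate holomorphic
symbol which is Hilbert-Schmidt is zero. -/
theorem Pool.Agent.Results.MP_dc9318_an.ReinhardtHankel.result {n : ℕ} (hn : 2 ≤ n)
    (Ω : Set (Fin n → ℂ)) (ho : IsOpen Ω) (hc : IsConnected Ω) (hb : Bornology.IsBounded Ω)
    (hR : IsReinhardt Ω) (f : (Fin n → ℂ) → ℂ) (hf : DifferentiableOn ℂ f Ω)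
    (hHS : IsHilbertSchmidt Ω (fun z => (starRingEnd ℂ) (f z))) :
    ∀ g h : (Fin n → ℂ) → ℂ,
      IsHankel Ω (fun z => (starRingEnd ℂ) (f z)) g h → ∀ᵐ z ∂volume.restrict Ω, h z = 0 :=
  fun _ _ h => final hn ho hc hb hR hf hHS h
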